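import Pool.Agent.EGF.StmtsR

set_option autoImplicit false

open Finset

namespace Pool.Agent.EGF.H16

open Pool.Agent.EGF

variable {X Y : Type} [DecidableEq X] [DecidableEq Y]

/-- number of pairs of `G` in a rectangle -/
noncomputable def cn (G : Finset (X × Y)) (A : Finset X) (B : Finset Y) : ℝ :=
  (((A ×ˢ B) ∩ G).card : ℝ)

theorem cn_left (G : Finset (X × Y)) {A A' : Finset X} (h : A' ⊆ A) (B : Finset Y) :
    cn G A B = cn G A' B + cn G (A \ A') B := by
  unfold cn
  rw [← Nat.cast_add, ← card_union_of_disjoint]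
  · congr 2
    ext p
    simp only [mem_inter, mem_product, mem_union, mem_sdiff]
    constructor
    · rintro ⟨⟨h1, h2⟩, h3⟩
      by_cases h4 : p.1 ∈ A'
      · exact Or.inl ⟨⟨h4, h2⟩, h3⟩
      · exact Or.inr ⟨⟨⟨h1, h4⟩, h2⟩, h3⟩
    · rintro (⟨⟨h1, h2⟩, h3⟩ | ⟨⟨⟨h1, h4⟩, h2⟩, h3⟩)
      · exact ⟨⟨h h1, h2⟩, h3⟩
      · exact ⟨⟨h1, h2⟩, h3⟩
  · rw [Finset.disjoint_left]
    intro p hp hq
    simp only [mem_inter, mem_product, mem_sdiff] at hp hq
    exact hq.1.1.2 hp.1.1

theorem cn_right (G : Finset (X × Y)) (A : Finset X) {B B' : Finset Y} (h : B' ⊆ B) :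
    cn G A B = cn G A B' + cn G A (B \ B') := by
  unfold cn
  rw [← Nat.cast_add, ← card_union_of_disjoint]
  · congr 2
    ext p
    simp only [mem_inter, mem_product, mem_union, mem_sdiff]
    constructor
    · rintro ⟨⟨h1, h2⟩, h3⟩
      by_cases h4 : p.2 ∈ B'
      · exact Or.inl ⟨⟨h1, h4⟩, h3⟩
      · exact Or.inr ⟨⟨h1, h2, h4⟩, h3⟩
    · rintro (⟨⟨h1, h2⟩, h3⟩ | ⟨⟨h1, h2, h4⟩, h3⟩)
      · exact ⟨⟨h1, h h2⟩, h3⟩
      · exact ⟨⟨h1, h2⟩, h3⟩
  · rw [Finset.disjoint_left]
    intro p hp hq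
    simp only [mem_inter, mem_product, mem_sdiff] at hp hq
    exact hq.1.2.2 hp.1.2

theorem cn_le (G : Finset (X × Y)) (A : Finset X) (B : Finset Y) :
    cn G A B ≤ A.card * B.card := by
  unfold cn
  rw [← Nat.cast_mul, ← card_product]
  exact_mod_cast card_le_card inter_subset_left

theorem cn_nonneg (G : Finset (X × Y)) (A : Finset X) (B : Finset Y) : 0 ≤ cn G A B :=
  Nat.cast_nonneg _

theorem cn_empty_left (G : Finset (X × Y)) (B : Finset Y) : cn G ∅ B = 0 := by
  unfold cn
  simp

theorem cn_empty_right (G : Finset (X × Y)) (A : Finset X) : cn G A ∅ = 0 := by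
  unfold cn
  simp

/-- **Row HRG**. -/
theorem hrg : HrgStmt := by
  intro X Y _ _ A B G H ω lam ρ hA hB hω hlam hρ hρ1 hG hH
  have ha0 : (0 : ℝ) < A.card := by exact_mod_cast hA.card_pos
  have hb0 : (0 : ℝ) < B.card := by exact_mod_cast hB.card_pos
  change ω * (A.card * B.card) ≤ cn G A B at hG
  change cn H A B ≤ lam * (A.card * B.card) at hH
  obtain ⟨K, hK⟩ : ∃ K : ℝ, K = ω / (4 * lam) := ⟨_, rfl⟩
  have hK0 : 0 < K := by rw [hK]; positivity
  have hKl : K * lam = ω / 4 := by rw [hK]; field_simp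
  obtain ⟨μA, eμA⟩ : ∃ μA : ℝ, μA = ω * ρ ^ 2 / 16 := ⟨_, rfl⟩
  obtain ⟨μB, eμB⟩ : ∃ μB : ℝ, μB = ω / 16 := ⟨_, rfl⟩
  have hμA : 0 < μA := by rw [eμA]; positivity
  have hμB : 0 < μB := by rw [eμB]; positivity
  obtain ⟨f, ef⟩ : ∃ f : Finset X → Finset Y → ℝ, ∀ A B, f A B = cn G A B - K * cn H A B :=
    ⟨fun A B => cn G A B - K * cn H A B, fun _ _ => rfl⟩
  have f_left : ∀ {A A' : Finset X} (h : A' ⊆ A) (B : Finset Y),
      f A B = f A' B + f (A \ A') B := by
    intro A A' h B
    simp only [ef]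
    rw [cn_left G h B, cn_left H h B]
    ring
  have f_right : ∀ (A : Finset X) {B B' : Finset Y} (h : B' ⊆ B),
      f A B = f A B' + f A (B \ B') := by
    intro A B B' h
    simp only [ef]
    rw [cn_right G A h, cn_right H A h]
    ring
  have f_le : ∀ (A : Finset X) (B : Finset Y), f A B ≤ A.card * B.card := by
    intro A B
    have h1 := cn_le G A B
    have h2 := mul_nonneg hK0.le (cn_nonneg H A B)
    simp only [ef]
    linarith
  obtain ⟨F, eF⟩ : ∃ F : Finset (Finset X × Finset Y), ∀ A' B', (A', B') ∈ F ↔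
      (A' ⊆ A ∧ B' ⊆ B) ∧ A'.Nonempty ∧ B'.Nonempty :=
    ⟨(A.powerset ×ˢ B.powerset).filter fun p => p.1.Nonempty ∧ p.2.Nonempty, fun A' B' => by
      simp only [mem_filter, mem_product, mem_powerset]⟩
  obtain ⟨Φ, eΦ⟩ : ∃ Φ : Finset X × Finset Y → ℝ, ∀ A' B', Φ (A', B') =
      f A' B' / (A'.card * B'.card) + μA * Real.log A'.card + μB * Real.log B'.card :=
    ⟨fun p => f p.1 p.2 / (p.1.card * p.2.card) + μA * Real.log p.1.card
      + μB * Real.log p.2.card, fun _ _ => rfl⟩
  have hF : (A, B) ∈ F := (eF A B).mpr ⟨⟨Subset.refl _, Subset.refl _⟩, hA, hB⟩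
  obtain ⟨⟨A1, B1⟩, h1, hmax⟩ := Finset.exists_max_image F Φ ⟨_, hF⟩
  obtain ⟨⟨hA1, hB1⟩, hA1n, hB1n⟩ := (eF A1 B1).mp h1
  clear h1
  have ha1 : (0 : ℝ) < A1.card := by exact_mod_cast hA1n.card_pos
  have hb1 : (0 : ℝ) < B1.card := by exact_mod_cast hB1n.card_pos
  have hla : Real.log A1.card ≤ Real.log A.card :=
    Real.log_le_log ha1 (by exact_mod_cast card_le_card hA1)
  have hlb : Real.log B1.card ≤ Real.log B.card :=
    Real.log_le_log hb1 (by exact_mod_cast card_le_card hB1)
  obtain ⟨h1, hh1⟩ : ∃ h1 : ℝ, h1 = f A1 B1 / (A1.card * B1.card) := ⟨_, rfl⟩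
  have hf1 : f A1 B1 = h1 * (A1.card * B1.card) := by
    rw [hh1]
    field_simp
  have h1le : h1 ≤ 1 := by
    rw [hh1, div_le_one (mul_pos ha1 hb1)]
    exact f_le A1 B1
  have hbase : 3 * ω / 4 ≤ f A B / (A.card * B.card) := by
    rw [le_div_iff₀ (mul_pos ha0 hb0)]
    have h2 : K * cn H A B ≤ K * (lam * (A.card * B.card)) := mul_le_mul_of_nonneg_left hH hK0.le
    have h3 : K * (lam * ((A.card : ℝ) * B.card)) = ω / 4 * (A.card * B.card) := by
      rw [← mul_assoc, hKl]
    simp only [ef]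
    linarith
  have hΦ : f A B / (A.card * B.card) + μA * Real.log A.card + μB * Real.log B.card
      ≤ h1 + μA * Real.log A1.card + μB * Real.log B1.card := by
    have := hmax _ hF
    rw [eΦ, eΦ] at this
    rw [hh1]
    exact this
  have hdA : 0 ≤ μA * (Real.log A.card - Real.log A1.card) := mul_nonneg hμA.le (by linarith)
  have hdB : 0 ≤ μB * (Real.log B.card - Real.log B1.card) := mul_nonneg hμB.le (by linarith)
  have h1ge : 3 * ω / 4 ≤ h1 := by linarith
  -- the size of a general competitor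
  have key : ∀ A' ⊆ A1, ∀ B' ⊆ B1, A'.Nonempty → B'.Nonempty →
      f A' B' ≤ (A'.card * B'.card) * (h1 + μA * (Real.log A1.card - Real.log A'.card)
        + μB * (Real.log B1.card - Real.log B'.card)) := by
    intro A' hA' B' hB' hA'n hB'n
    have ha' : (0 : ℝ) < A'.card := by exact_mod_cast hA'n.card_pos
    have hb' : (0 : ℝ) < B'.card := by exact_mod_cast hB'n.card_pos
    have hm : Φ (A', B') ≤ Φ (A1, B1) := by
      apply hmax
      exact (eF A' B').mpr ⟨⟨hA'.trans hA1, hB'.trans hB1⟩, hA'n, hB'n⟩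
    rw [eΦ, eΦ] at hm
    have h2 : f A' B' / (A'.card * B'.card) ≤ h1 + μA * (Real.log A1.card - Real.log A'.card)
        + μB * (Real.log B1.card - Real.log B'.card) := by
      rw [hh1]
      linarith
    rw [div_le_iff₀ (mul_pos ha' hb')] at h2
    linarith
  -- the log inequality
  have loglem : ∀ s t : ℝ, 0 < s → 0 < t → t * (Real.log s - Real.log t) ≤ s - t := by
    intro s t hs ht
    have h2 := Real.log_le_sub_one_of_pos (show 0 < s / t by positivity)
    rw [Real.log_div hs.ne' ht.ne'] at h2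
    calc t * (Real.log s - Real.log t) ≤ t * (s / t - 1) := mul_le_mul_of_nonneg_left h2 ht.le
      _ = s - t := by field_simp
  refine ⟨A1, hA1, B1, hB1, hA1n, hB1n, ?_, ?_, ?_⟩
  · have h2 : μA * (Real.log A.card - Real.log A1.card) ≤ 1 := by linarith
    have h3 : Real.log A.card - Real.log A1.card ≤ 1 / μA := by
      rw [le_div_iff₀ hμA]
      linarith
    have h4 : 1 / μA = 16 / (ω * ρ ^ 2) := by
      rw [eμA]
      field_simp
    linarith
  · have h2 : μB * (Real.log B.card - Real.log B1.card) ≤ 1 := by linarith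
    have h3 : Real.log B.card - Real.log B1.card ≤ 1 / μB := by
      rw [le_div_iff₀ hμB]
      linarith
    have h4 : 1 / μB = 16 / ω := by
      rw [eμB]
      field_simp
    linarith
  intro A' hA' B' hB' hρA hρB
  have ha' : (0 : ℝ) < A'.card := lt_of_lt_of_le (mul_pos hρ ha1) hρA
  have hb' : (0 : ℝ) < B'.card := lt_of_lt_of_le (mul_pos hρ hb1) hρB
  have hA'n : A'.Nonempty := card_pos.mp (by exact_mod_cast ha')
  have hB'n : B'.Nonempty := card_pos.mp (by exact_mod_cast hb')
  have c1 : ((A1 \ A').card : ℝ) = A1.card - A'.card := by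
    rw [card_sdiff_of_subset hA', Nat.cast_sub (card_le_card hA')]
  have c2 : ((B1 \ B').card : ℝ) = B1.card - B'.card := by
    rw [card_sdiff_of_subset hB', Nat.cast_sub (card_le_card hB')]
  have hb'le : (B'.card : ℝ) ≤ B1.card := by exact_mod_cast card_le_card hB'
  have ha'le : (A'.card : ℝ) ≤ A1.card := by exact_mod_cast card_le_card hA'
  -- step (1)
  have s1 : f (A1 \ A') B1 ≤ (A1.card - A'.card) * B1.card * h1 + μA * (A'.card * B1.card) := by
    rcases (A1 \ A').eq_empty_or_nonempty with he | hne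
    · rw [he, card_empty, Nat.cast_zero] at c1
      rw [he, ← c1]
      have : f ∅ B1 = 0 := by
        simp only [ef]
        rw [cn_empty_left, cn_empty_left]
        ring
      rw [this]
      have : 0 ≤ μA * ((A'.card : ℝ) * B1.card) := mul_nonneg hμA.le (mul_nonneg ha'.le hb1.le)
      linarith
    · have h2 := key (A1 \ A') sdiff_subset B1 (Subset.refl _) hne hB1n
      have ht : (0 : ℝ) < (A1 \ A').card := by exact_mod_cast hne.card_pos
      have h3 := loglem A1.card (A1 \ A').card ha1 ht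
      rw [sub_self, mul_zero, add_zero] at h2
      have h4 : (((A1 \ A').card : ℝ) * B1.card) * (h1 + μA * (Real.log A1.card -
          Real.log (A1 \ A').card)) = (A1.card - A'.card) * B1.card * h1 + μA * (((A1 \ A').card *
          (Real.log A1.card - Real.log (A1 \ A').card)) * B1.card) := by
        rw [← c1]
        ring
      rw [h4] at h2
      have h5 : μA * (((A1 \ A').card * (Real.log A1.card - Real.log (A1 \ A').card)) * B1.card)
          ≤ μA * (A'.card * B1.card) := by
        apply mul_le_mul_of_nonneg_left _ hμA.le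
        apply mul_le_mul_of_nonneg_right _ hb1.le
        rw [c1] at h3 ⊢
        linarith
      linarith
  have s2 : A'.card * B1.card * (h1 - μA) ≤ f A' B1 := by
    have h2 := f_left hA' B1
    rw [hf1] at h2
    have h3 : f A' B1 = h1 * (A1.card * B1.card) - f (A1 \ A') B1 := by linarith
    rw [h3]
    linarith
  -- step (2)
  obtain ⟨La, hLa⟩ : ∃ La : ℝ, La = Real.log A1.card - Real.log A'.card := ⟨_, rfl⟩
  have hLa0 : 0 ≤ La := by
    have := Real.log_le_log ha' ha'le
    linarith
  have s3 : f A' (B1 \ B') ≤ A'.card * (B1.card - B'.card) * (h1 + μA * La)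
      + μB * (A'.card * B'.card) := by
    rcases (B1 \ B').eq_empty_or_nonempty with he | hne
    · rw [he, card_empty, Nat.cast_zero] at c2
      rw [he, ← c2]
      have : f A' ∅ = 0 := by
        simp only [ef]
        rw [cn_empty_right, cn_empty_right]
        ring
      rw [this]
      have : 0 ≤ μB * ((A'.card : ℝ) * B'.card) := mul_nonneg hμB.le (mul_nonneg ha'.le hb'.le)
      linarith
    · have h2 := key A' hA' (B1 \ B') sdiff_subset hA'n hne
      have ht : (0 : ℝ) < (B1 \ B').card := by exact_mod_cast hne.card_pos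
      have h3 := loglem B1.card (B1 \ B').card hb1 ht
      have h4 : ((A'.card : ℝ) * (B1 \ B').card) * (h1 + μA * La + μB * (Real.log B1.card -
          Real.log (B1 \ B').card)) = A'.card * (B1.card - B'.card) * (h1 + μA * La)
          + μB * (A'.card * ((B1 \ B').card * (Real.log B1.card - Real.log (B1 \ B').card))) := by
        rw [← c2]
        ring
      rw [← hLa, h4] at h2
      have h5 : μB * (A'.card * ((B1 \ B').card * (Real.log B1.card - Real.log (B1 \ B').card)))
          ≤ μB * (A'.card * B'.card) := by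
        apply mul_le_mul_of_nonneg_left _ hμB.le
        apply mul_le_mul_of_nonneg_left _ ha'.le
        rw [c2] at h3 ⊢
        linarith
      linarith
  have s4 : A'.card * B'.card * h1 - μA * (A'.card * B1.card * (1 + La))
      - μB * (A'.card * B'.card) ≤ f A' B' := by
    have h2 := f_right A' hB'
    have h3 : f A' B' = f A' B1 - f A' (B1 \ B') := by linarith
    rw [h3]
    have h4 : 0 ≤ μA * ((A'.card : ℝ) * B'.card * La) :=
      mul_nonneg hμA.le (mul_nonneg (mul_nonneg ha'.le hb'.le) hLa0)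
    linarith
  have s5 : μA * (A'.card * B1.card * (1 + La)) ≤ ω / 16 * (A'.card * B'.card) := by
    have h2 := loglem A1.card A'.card ha1 ha'
    have h3 : A'.card * (1 + La) ≤ (A1.card : ℝ) := by
      rw [← hLa] at h2
      linarith
    have h4 : (A'.card * (1 + La)) * (ρ * B1.card) ≤ A1.card * B'.card :=
      mul_le_mul h3 hρB (mul_pos hρ hb1).le ha1.le
    have h5 : ρ * ((A'.card * (1 + La)) * (ρ * B1.card)) ≤ ρ * (A1.card * B'.card) :=
      mul_le_mul_of_nonneg_left h4 hρ.le
    have h6 : (ρ * A1.card) * B'.card ≤ (A'.card : ℝ) * B'.card :=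
      mul_le_mul_of_nonneg_right hρA hb'.le
    have h7 : μA * (A'.card * B1.card * (1 + La))
        = ω / 16 * (ρ * ((A'.card * (1 + La)) * (ρ * B1.card))) := by
      rw [eμA]
      ring
    rw [h7]
    apply mul_le_mul_of_nonneg_left _ (by positivity)
    linarith
  have s6 : 5 * ω / 8 * (A'.card * B'.card) ≤ f A' B' := by
    have h2 : 3 * ω / 4 * (A'.card * B'.card) ≤ (A'.card : ℝ) * B'.card * h1 := by
      rw [mul_comm ((A'.card : ℝ) * B'.card) h1]
      exact mul_le_mul_of_nonneg_right h1ge (mul_pos ha' hb').le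
    have h3 : μB * ((A'.card : ℝ) * B'.card) = ω / 16 * (A'.card * B'.card) := by rw [eμB]
    rw [h3] at s4
    linarith
  have hpos : 0 ≤ ω * ((A'.card : ℝ) * B'.card) := (mul_pos hω (mul_pos ha' hb')).le
  have hKH : 0 ≤ K * cn H A' B' := mul_nonneg hK0.le (cn_nonneg H A' B')
  have s7 : cn G A' B' = f A' B' + K * cn H A' B' := by
    simp only [ef]
    ring
  constructor
  · show ω / 2 * (A'.card * B'.card) ≤ cn G A' B'
    rw [s7]
    linarith
  · show cn H A' B' ≤ 4 * lam / ω * (A'.card * B'.card)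
    have h2 : K * cn H A' B' ≤ A'.card * B'.card := by
      have := cn_le G A' B'
      linarith
    have h3 : 4 * lam / ω * ((A'.card : ℝ) * B'.card) = (A'.card * B'.card) / K := by
      rw [hK]
      have hgen : ∀ t : ℝ, 4 * lam / ω * t = t / (ω / (4 * lam)) := by
        intro t
        clear hmax eF eΦ ef key loglem
        field_simp
      exact hgen _
    rw [h3, le_div_iff₀ hK0]
    linarith

end Pool.Agent.EGF.H16
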