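import Pool.Agent.EGF.StmtsQ

/-!
# EGF, row IT8: all rounds
-/

set_option autoImplicit false

open Finset

namespace Pool.Agent.EGF.H16

open Pool.Agent.EGF

section

variable {V : Type} [DecidableEq V] {k : ℕ}

/-- the state after `i` rounds -/
def St (A B : Finset V) (η : ℝ) (i : ℕ) (p : Finset V × Finset V) : Prop :=
  p.1 ⊆ A ∧ p.2 ⊆ B ∧ η ^ i * A.card ≤ (p.1.card : ℝ) ∧ η ^ i * B.card ≤ (p.2.card : ℝ)

/-- one round from `p` to `q` with the colour `g` -/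
def Tr (c : V → V → Fin k) (C1 : Finset (Fin k)) (e : Fin k) (p q : Finset V × Finset V)
    (g : Fin k) : Prop :=
  ∃ (x x' y y' : V) (a b : Fin k), Rn8 c C1 e p.1 p.2 q.1 q.2 x x' y y' a b g

theorem rob_sub {c : V → V → Fin k} {e : Fin k} {A B A' B' : Finset V} {ρ ρ1 q η : ℝ} {m i : ℕ}
    (hη : 0 < η) (hη1 : η ≤ 1) (him : i ≤ m) (hρ1 : 0 < ρ1) (hρ : ρ = ρ1 * η ^ m)
    (hA : A' ⊆ A) (hB : B' ⊆ B) (hAc : η ^ i * A.card ≤ (A'.card : ℝ))
    (hBc : η ^ i * B.card ≤ (B'.card : ℝ)) (h : Rob c e A B ρ q) : Rob c e A' B' ρ1 q := by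
  intro A2 hA2 B2 hB2 h1 h2
  have hpow : η ^ m ≤ η ^ i := pow_le_pow_of_le_one hη.le hη1 him
  refine h A2 (hA2.trans hA) B2 (hB2.trans hB) ?_ ?_
  · refine le_trans ?_ h1
    rw [hρ, mul_assoc]
    refine mul_le_mul_of_nonneg_left ?_ hρ1.le
    exact (mul_le_mul_of_nonneg_right hpow (Nat.cast_nonneg _)).trans hAc
  · refine le_trans ?_ h2
    rw [hρ, mul_assoc]
    refine mul_le_mul_of_nonneg_left ?_ hρ1.le
    exact (mul_le_mul_of_nonneg_right hpow (Nat.cast_nonneg _)).trans hBc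

theorem reg_sub {c : V → V → Fin k} {C : Finset (Fin k)} {A B A' B' : Finset V} {ρ ρ1 lam η : ℝ}
    {m i : ℕ}
    (hη : 0 < η) (hη1 : η ≤ 1) (him : i ≤ m) (hρ1 : 0 < ρ1) (hρ : ρ = ρ1 * η ^ m)
    (hA : A' ⊆ A) (hB : B' ⊆ B) (hAc : η ^ i * A.card ≤ (A'.card : ℝ))
    (hBc : η ^ i * B.card ≤ (B'.card : ℝ)) (h : Reg c C A B lam ρ) : Reg c C A' B' lam ρ1 := by
  intro A2 hA2 B2 hB2 h1 h2
  have hpow : η ^ m ≤ η ^ i := pow_le_pow_of_le_one hη.le hη1 him
  refine h A2 (hA2.trans hA) B2 (hB2.trans hB) ?_ ?_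
  · refine le_trans ?_ h1
    rw [hρ, mul_assoc]
    refine mul_le_mul_of_nonneg_left ?_ hρ1.le
    exact (mul_le_mul_of_nonneg_right hpow (Nat.cast_nonneg _)).trans hAc
  · refine le_trans ?_ h2
    rw [hρ, mul_assoc]
    refine mul_le_mul_of_nonneg_left ?_ hρ1.le
    exact (mul_le_mul_of_nonneg_right hpow (Nat.cast_nonneg _)).trans hBc

/-- the logarithm of the size of a large subset -/
theorem log_sub {A A' : Finset V} {η ν N : ℝ} {m i : ℕ} (hη : 0 < η) (hη1 : η ≤ 1)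
    (him : i ≤ m) (hN : 1 ≤ N) (hν : 0 < ν) (hν1 : ν ≤ 1)
    (hm : m * Real.log (1 / η) ≤ ν / 2 * N)
    (hA : (1 - ν / 2) * N ≤ Real.log A.card) (hAc : η ^ i * A.card ≤ (A'.card : ℝ)) :
    (1 - ν) * N ≤ Real.log A'.card := by
  have hA0 : 0 < (A.card : ℝ) := by
    rcases Nat.eq_zero_or_pos A.card with h | h
    · exfalso
      rw [h] at hA
      simp only [Nat.cast_zero, Real.log_zero] at hA
      nlinarith
    · exact_mod_cast h
  have h1 : Real.log (η ^ i * A.card) ≤ Real.log A'.card :=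
    Real.log_le_log (mul_pos (pow_pos hη i) hA0) hAc
  rw [Real.log_mul (pow_pos hη i).ne' hA0.ne', Real.log_pow] at h1
  have h2 : Real.log (1 / η) = - Real.log η := by
    rw [one_div, Real.log_inv]
  have h3 : Real.log η ≤ 0 := Real.log_nonpos hη.le hη1
  have h4 : (i : ℝ) ≤ m := by exact_mod_cast him
  rw [h2] at hm
  nlinarith [mul_nonneg (sub_nonneg.2 h4) (neg_nonneg.2 h3)]

/-- a chain of rounds -/
theorem chain {c : V → V → Fin k} {C1 : Finset (Fin k)} {e : Fin k} {A B : Finset V} {η : ℝ}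
    {m : ℕ}
    (step : ∀ i < m, ∀ p, St A B η i p → ∃ q g, St A B η (i + 1) q ∧ Tr c C1 e p q g) :
    ∀ n ≤ m, ∃ (F : ℕ → Finset V × Finset V) (G : ℕ → Fin k),
      (∀ i ≤ n, St A B η i (F i)) ∧ ∀ i < n, Tr c C1 e (F i) (F (i + 1)) (G i) := by
  intro n
  induction n with
  | zero =>
    intro _
    refine ⟨fun _ => (A, B), fun _ => e, ?_, fun i hi => absurd hi (Nat.not_lt_zero i)⟩
    intro i hi
    obtain rfl : i = 0 := Nat.le_zero.1 hi
    refine ⟨Subset.refl _, Subset.refl _, ?_, ?_⟩ <;> simp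
  | succ n ih =>
    intro hn
    obtain ⟨F, G, h1, h2⟩ := ih (by omega)
    obtain ⟨q, g, hq, ht⟩ := step n (by omega) (F n) (h1 n le_rfl)
    refine ⟨fun i => if i ≤ n then F i else q, fun i => if i < n then G i else g, ?_, ?_⟩
    · intro i hi
      rcases Nat.lt_or_ge n i with h | h
      · obtain rfl : i = n + 1 := by omega
        simp only [if_neg (by omega : ¬ n + 1 ≤ n)]
        exact hq
      · simp only [if_pos h]
        exact h1 i h
    · intro i hi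
      rcases Nat.lt_or_ge i n with h | h
      · simp only [if_pos h.le, if_pos h, if_pos (by omega : i + 1 ≤ n)]
        exact h2 i h
      · obtain rfl : i = n := by omega
        simp only [if_pos le_rfl, if_neg (lt_irrefl i), if_neg (by omega : ¬ i + 1 ≤ i)]
        exact ht

/-- the sets of a chain decrease -/
theorem chain_sub {c : V → V → Fin k} {C1 : Finset (Fin k)} {e : Fin k}
    {F : ℕ → Finset V × Finset V} {G : ℕ → Fin k} {m : ℕ}
    (h : ∀ i < m, Tr c C1 e (F i) (F (i + 1)) (G i)) :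
    ∀ a b, a ≤ b → b ≤ m → (F b).1 ⊆ (F a).1 ∧ (F b).2 ⊆ (F a).2 := by
  intro a b hab
  induction b, hab using Nat.le_induction with
  | base => exact fun _ => ⟨Subset.refl _, Subset.refl _⟩
  | succ b hab ih =>
    intro hb
    obtain ⟨i1, i2⟩ := ih (by omega)
    obtain ⟨x, x', y, y', a', b', hr⟩ := h b (by omega)
    exact ⟨hr.sA.trans i1, hr.sB.trans i2⟩

end

theorem it8 (hRn : Rn8Stmt) (hCn : Cn8Stmt) : It8Stmt := by
  intro θ cR R s j hθ hθ1 hcR hcR1 hR hs hj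
  obtain ⟨ρ1, lam, η, ν1, N1, hρ1, hρ11, hlam, hlam1, hη, hη1, hν1, hν11, hN1, hmain⟩ :=
    hRn θ cR R s j hθ hθ1 hcR hcR1 hR hs hj
  refine ⟨lam, hlam, hlam1, fun j1 => ?_⟩
  refine ⟨ρ1 * η ^ (j1 + 1), ν1 / 2,
    max N1 (((j1 + 1 : ℕ) : ℝ) * Real.log (1 / η) / (ν1 / 2)), by positivity,
    mul_le_one₀ hρ11 (by positivity) (pow_le_one₀ hη.le hη1), by positivity, by linarith,
    hN1.trans (le_max_left _ _), ?_⟩
  intro V _ k c U A B C1 e L hsym hrec hpal hsm hL hLs hflat hAU hBU hAB hA hB hk hN hC1 hrob hreg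
  set m : ℕ := j1 + 1 with hm
  have hN1' : N1 ≤ Real.log U.card := (le_max_left _ _).trans hN
  have hN1'' : 1 ≤ Real.log U.card := hN1.trans hN1'
  have hmη : (m : ℝ) * Real.log (1 / η) ≤ ν1 / 2 * Real.log U.card := by
    have h := (le_max_right N1 (((m : ℕ) : ℝ) * Real.log (1 / η) / (ν1 / 2))).trans hN
    rw [div_le_iff₀ (by positivity)] at h
    linarith
  have hk' : Real.log k ≤ ν1 * Real.log U.card := by
    refine hk.trans ?_
    nlinarith
  have step : ∀ i < m, ∀ p, St A B η i p → ∃ q g, St A B η (i + 1) q ∧ Tr c C1 e p q g := by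
    intro i hi p hp
    obtain ⟨p1, p2, p3, p4⟩ := hp
    obtain ⟨A', B', x, x', y, y', a, b, g, hr, hA', hB'⟩ := hmain V k c U p.1 p.2 C1 e L hsym
      hrec hpal hsm hL hLs hflat (p1.trans hAU) (p2.trans hBU)
      (Finset.disjoint_of_subset_left p1 (Finset.disjoint_of_subset_right p2 hAB))
      (log_sub hη hη1 hi.le hN1'' hν1 hν11 hmη hA p3)
      (log_sub hη hη1 hi.le hN1'' hν1 hν11 hmη hB p4) hk' hN1'
      (rob_sub hη hη1 hi.le hρ1 rfl p1 p2 p3 p4 hrob)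
      (reg_sub hη hη1 hi.le hρ1 rfl p1 p2 p3 p4 hreg)
    refine ⟨(A', B'), g, ⟨hr.sA.trans p1, hr.sB.trans p2, ?_, ?_⟩, x, x', y, y', a, b, hr⟩
    · refine le_trans ?_ hA'
      rw [pow_succ', mul_assoc]
      exact mul_le_mul_of_nonneg_left p3 hη.le
    · refine le_trans ?_ hB'
      rw [pow_succ', mul_assoc]
      exact mul_le_mul_of_nonneg_left p4 hη.le
  obtain ⟨F, G, hF, hG⟩ := chain step m le_rfl
  have hsub := chain_sub hG
  have hcard : C1.card < (Finset.range m).card := by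
    rw [Finset.card_range]
    omega
  have hmaps : ∀ i ∈ Finset.range m, G i ∈ C1 := by
    intro i hi
    obtain ⟨x, x', y, y', a, b, hr⟩ := hG i (Finset.mem_range.1 hi)
    exact hr.gC
  obtain ⟨i, hi, i', hi', hne, heq⟩ :=
    Finset.exists_ne_map_eq_of_card_lt_of_maps_to hcard hmaps
  rw [Finset.mem_range] at hi hi'
  have key : ∀ i i' : ℕ, i < i' → i' < m → G i = G i' →
      ∃ Q : Finset V, Q ⊆ U ∧ Q.card = 8 ∧ (pal c Q).card ≤ 6 := by
    intro i i' hlt hi' heq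
    obtain ⟨x, x', y, y', a, b, hr⟩ := hG i (by omega)
    obtain ⟨w, w', z, z', a1, b1, hr'⟩ := hG i' hi'
    rw [← heq] at hr'
    have hs1 := hsub (i + 1) i' hlt hi'.le
    obtain ⟨p1, p2, -, -⟩ := hF i (by omega)
    obtain ⟨Q, hQ, hQ8, hQ6⟩ := hCn V k c C1 (F i).1 (F i).2 (F (i + 1)).1 (F (i + 1)).2
      (F i').1 (F i').2 (F (i' + 1)).1 (F (i' + 1)).2 x x' y y' w w' z z' e a b a1 b1 (G i) hsym
      (Finset.disjoint_of_subset_left p1 (Finset.disjoint_of_subset_right p2 hAB)) hr hs1.1 hs1.2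
      hr'
    exact ⟨Q, hQ.trans (Finset.union_subset (p1.trans hAU) (p2.trans hBU)), hQ8, hQ6⟩
  rcases Nat.lt_or_gt_of_ne hne with h | h
  · exact key i i' h hi' heq
  · exact key i' i h hi heq.symm

end Pool.Agent.EGF.H16
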